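import Pool.Agent.Helper50.VD.St

open MeasureTheory Set Filter Topology
open scoped ENNReal

noncomputable section

namespace VD.M_K0

theorem meas_G : Measurable (fun p : (ℝ × ℝ) × (ℝ × ℝ) => G p.1 p.2) := by
  unfold G
  refine Measurable.div_const (Real.measurable_log.comp ?_) _
  fun_prop

theorem meas_N : Measurable (fun p : (ℝ × ℝ) × (ℝ × ℝ) => N p.1 p.2) := by
  unfold N
  refine Measurable.ite ?_ ?_ ?_
  · exact measurableSet_eq_fun (by fun_prop) measurable_const
  · fun_prop
  · exact meas_G.div (by fun_prop)

theorem meas_kBS : Measurable kBS := by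
  unfold kBS
  fun_prop

end VD.M_K0

namespace VD

/-- measurability of N, phi, kap -/
theorem mK0 : StK0 := by
  refine ⟨M_K0.meas_N, ?_, ?_⟩
  · intro A _
    have h := (M_K0.meas_N.stronglyMeasurable).integral_prod_right' (ν := volume.restrict A)
    exact h.measurable
  · unfold kap
    refine Measurable.sub ?_ ?_
    · exact M_K0.meas_kBS.comp (by fun_prop)
    · exact M_K0.meas_kBS.comp (by fun_prop)

end VD
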