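import Pool.Agent.Helper50.VD.St

open MeasureTheory Set Filter Topology
open scoped ENNReal

noncomputable section

namespace VD.M_K2

/-- upper bound of the kernel -/
def f (z y : ℝ × ℝ) : ℝ := 1 / (Real.pi * Real.sqrt ((z.1 - y.1) ^ 2 + (z.2 - y.2) ^ 2))

theorem f_nonneg (z y : ℝ × ℝ) : 0 ≤ f z y := by
  unfold f
  have := Real.pi_pos
  positivity

theorem meas_f (z : ℝ × ℝ) : Measurable (f z) := by
  unfold f
  fun_prop

theorem dist_le (z y : ℝ × ℝ) : dist y z ≤ Real.sqrt ((z.1 - y.1) ^ 2 + (z.2 - y.2) ^ 2) := by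
  rw [Prod.dist_eq, Real.dist_eq, Real.dist_eq]
  apply max_le
  · rw [abs_sub_comm]
    apply Real.abs_le_sqrt
    nlinarith [sq_nonneg (z.2 - y.2)]
  · rw [abs_sub_comm]
    apply Real.abs_le_sqrt
    nlinarith [sq_nonneg (z.1 - y.1)]

theorem sub_ball (z : ℝ × ℝ) (t : ℝ) (ht : 0 < t) :
    {y | t < f z y} ⊆ Metric.ball z (1 / (Real.pi * t)) := by
  intro y hy
  have hy' : t < f z y := hy
  unfold f at hy'
  have hpi := Real.pi_pos
  set e := Real.sqrt ((z.1 - y.1) ^ 2 + (z.2 - y.2) ^ 2) with he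
  have he0 : 0 ≤ e := Real.sqrt_nonneg _
  have he1 : 0 < e := by
    rcases he0.eq_or_lt with h | h
    · rw [← h] at hy'
      simp at hy'
      linarith
    · exact h
  rw [Metric.mem_ball]
  refine lt_of_le_of_lt (dist_le z y) ?_
  rw [← he]
  rw [lt_div_iff₀ (by positivity)] at hy' ⊢
  nlinarith

theorem vol_ball (z : ℝ × ℝ) (r : ℝ) (hr : 0 ≤ r) :
    volume (Metric.ball z r) = ENNReal.ofReal (4 * r ^ 2) := by
  have : Metric.ball z r = Metric.ball z.1 r ×ˢ Metric.ball z.2 r := (ball_prod_same z.1 z.2 r).symm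
  rw [this, Measure.volume_eq_prod, Measure.prod_prod, Real.volume_ball, Real.volume_ball,
    ← ENNReal.ofReal_mul (by linarith)]
  congr 1
  ring

theorem tail (T : ℝ) (hT : 0 < T) :
    ∫⁻ t in Ioi T, ENNReal.ofReal (t ^ (-2 : ℝ)) = ENNReal.ofReal (1 / T) := by
  rw [← ofReal_integral_eq_lintegral_ofReal]
  · rw [integral_Ioi_rpow_of_lt (by norm_num) hT]
    congr 1
    have : (-2 : ℝ) + 1 = -1 := by norm_num
    rw [this, Real.rpow_neg_one]
    field_simp
  · exact integrableOn_Ioi_rpow_of_lt (by norm_num) hT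
  · rw [EventuallyLE, ae_restrict_iff' measurableSet_Ioi]
    exact Eventually.of_forall fun t ht => Real.rpow_nonneg (hT.le.trans (le_of_lt ht)) _

theorem main (A : Set (ℝ × ℝ)) (hv : volume A < ∞) (z : ℝ × ℝ) :
    ∫⁻ y in A, ENNReal.ofReal (f z y) ≤ ENNReal.ofReal (4 * Real.sqrt (volume A).toReal) := by
  set V := (volume A).toReal with hV
  have hV0 : 0 ≤ V := ENNReal.toReal_nonneg
  rcases hV0.eq_or_lt with h0 | hpos
  · have : volume A = 0 := by
      rcases (ENNReal.toReal_eq_zero_iff _).1 (hV ▸ h0.symm) with h | h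
      · exact h
      · exact absurd h hv.ne
    rw [Measure.restrict_eq_zero.mpr this]
    simp
  have hVA : volume A = ENNReal.ofReal V := (ENNReal.ofReal_toReal hv.ne).symm
  have hs : 0 < Real.sqrt V := Real.sqrt_pos.2 hpos
  have hss : Real.sqrt V * Real.sqrt V = V := Real.mul_self_sqrt hV0
  rw [lintegral_eq_lintegral_meas_lt _ (Eventually.of_forall (f_nonneg z))
    (meas_f z).aemeasurable]
  set T := 1 / Real.sqrt V with hT
  have hT0 : 0 < T := by positivity
  have hsplit : Ioi (0 : ℝ) = Ioc 0 T ∪ Ioi T := (Ioc_union_Ioi_eq_Ioi hT0.le).symm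
  rw [hsplit, lintegral_union measurableSet_Ioi (Ioc_disjoint_Ioi le_rfl)]
  have h1 : ∫⁻ t in Ioc 0 T, (volume.restrict A) {y | t < f z y} ≤ ENNReal.ofReal (Real.sqrt V) := by
    calc ∫⁻ t in Ioc 0 T, (volume.restrict A) {y | t < f z y} ≤ ∫⁻ t in Ioc 0 T, volume A := by
          apply lintegral_mono
          intro t
          exact (measure_mono (subset_univ _)).trans (by rw [Measure.restrict_apply_univ])
      _ = volume A * volume (Ioc 0 T) := by rw [setLIntegral_const]
      _ = ENNReal.ofReal (Real.sqrt V) := by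
          rw [Real.volume_Ioc, hVA, ← ENNReal.ofReal_mul hV0]
          congr 1
          rw [hT, sub_zero]
          field_simp
          rw [sq, hss]
  have h2 : ∫⁻ t in Ioi T, (volume.restrict A) {y | t < f z y} ≤ ENNReal.ofReal (Real.sqrt V) := by
    calc ∫⁻ t in Ioi T, (volume.restrict A) {y | t < f z y}
        ≤ ∫⁻ t in Ioi T, ENNReal.ofReal (t ^ (-2 : ℝ)) := by
          apply setLIntegral_mono' measurableSet_Ioi
          intro t ht
          have ht0 : 0 < t := hT0.trans ht
          refine (Measure.restrict_apply_le _ _).trans ?_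
          refine (measure_mono (sub_ball z t ht0)).trans ?_
          have hpi := Real.pi_gt_three
          rw [vol_ball _ _ (by positivity)]
          apply ENNReal.ofReal_le_ofReal
          rw [Real.rpow_neg ht0.le, Real.rpow_two, div_pow, mul_pow, one_pow, ← one_div,
            mul_one_div, div_le_div_iff₀ (by positivity) (by positivity)]
          have h9 : 9 ≤ Real.pi ^ 2 := by nlinarith
          have ht2 : 0 < t ^ 2 := by positivity
          nlinarith [mul_le_mul_of_nonneg_right h9 ht2.le]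
      _ = ENNReal.ofReal (1 / T) := tail T hT0
      _ = ENNReal.ofReal (Real.sqrt V) := by rw [hT, one_div_one_div]
  calc _ ≤ ENNReal.ofReal (Real.sqrt V) + ENNReal.ofReal (Real.sqrt V) := add_le_add h1 h2
    _ = ENNReal.ofReal (Real.sqrt V + Real.sqrt V) := (ENNReal.ofReal_add hs.le hs.le).symm
    _ ≤ _ := ENNReal.ofReal_le_ofReal (by linarith)

end VD.M_K2

namespace VD

open M_K2 in
/-- integrability and sup bound of phi -/
theorem mK2 (hK0 : StK0) (hK1 : StK1) : StK2 := by
  intro A hA hO hv z hz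
  have hmN : Measurable (N z) := hK0.1.comp measurable_prodMk_left
  have hae : ∀ᵐ y ∂(volume.restrict A), 0 < N z y ∧ N z y ≤ f z y := by
    rw [ae_restrict_iff' hA]
    have h1 : ∀ᵐ y : ℝ × ℝ, y ≠ z := by
      rw [ae_iff]
      simp
    filter_upwards [h1] with y hy hyA
    have h := hK1 z y hz (hO hyA) hy.symm
    exact ⟨h.1, h.2.1⟩
  have hnn : 0 ≤ᵐ[volume.restrict A] N z := by
    filter_upwards [hae] with y hy
    exact hy.1.le
  have hle : ∫⁻ y in A, ENNReal.ofReal (N z y) ≤
      ENNReal.ofReal (4 * Real.sqrt (volume A).toReal) := by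
    refine le_trans (lintegral_mono_ae ?_) (main A hv z)
    filter_upwards [hae] with y hy
    exact ENNReal.ofReal_le_ofReal hy.2
  have hint : IntegrableOn (N z) A := by
    refine ⟨hmN.aestronglyMeasurable, ?_⟩
    rw [hasFiniteIntegral_iff_ofReal hnn]
    exact lt_of_le_of_lt hle ENNReal.ofReal_lt_top
  have hphi : phi A z = (∫⁻ y in A, ENNReal.ofReal (N z y)).toReal :=
    integral_eq_lintegral_of_nonneg_ae hnn hmN.aestronglyMeasurable
  refine ⟨hint, ?_, ?_, ?_⟩
  · rw [hphi]
    exact ENNReal.toReal_nonneg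
  · rw [hphi]
    refine (ENNReal.toReal_mono ENNReal.ofReal_ne_top hle).trans ?_
    rw [ENNReal.toReal_ofReal (by positivity)]
  · intro hpos
    unfold phi
    rw [setIntegral_pos_iff_support_of_nonneg_ae hnn hint]
    have h2 : volume A ≤ volume (Function.support (N z) ∩ A) := by
      apply measure_mono_ae
      rw [ae_restrict_iff' hA] at hae
      filter_upwards [hae] with y hy hyA
      exact ⟨(hy hyA).1.ne', hyA⟩
    exact lt_of_lt_of_le hpos h2

end VD
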