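import Pool.Agent.Helper50.VD.St

open MeasureTheory Set Filter Topology
open scoped ENNReal

noncomputable section

namespace VD.M_K3

theorem norm_le_sqrt (z y : ℝ × ℝ) :
    ‖z - y‖ ≤ Real.sqrt ((z.1 - y.1) ^ 2 + (z.2 - y.2) ^ 2) := by
  rw [Prod.norm_def]
  apply max_le
  · apply Real.abs_le_sqrt
    show (z.1 - y.1) ^ 2 ≤ _
    nlinarith [sq_nonneg (z.2 - y.2)]
  · apply Real.abs_le_sqrt
    show (z.2 - y.2) ^ 2 ≤ _
    nlinarith [sq_nonneg (z.1 - y.1)]

theorem vol_ball (z : ℝ × ℝ) (r : ℝ) (hr : 0 ≤ r) :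
    volume (Metric.ball z r) = ENNReal.ofReal (4 * r ^ 2) := by
  have : Metric.ball z r = Metric.ball z.1 r ×ˢ Metric.ball z.2 r := (ball_prod_same z.1 z.2 r).symm
  rw [this, Measure.volume_eq_prod, Measure.prod_prod, Real.volume_ball, Real.volume_ball,
    ← ENNReal.ofReal_mul (by linarith)]
  congr 1
  ring

/-- continuity of the kernel -/
theorem cont_N (hK1 : StK1) (y z0 : ℝ × ℝ) (hy : 0 < y.2) (h0 : 0 ≤ z0.2) (hne : z0 ≠ y) :
    Tendsto (fun z => N z y) (𝓝[{z | 0 ≤ z.2}] z0) (𝓝 (N z0 y)) := by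
  have hpi := Real.pi_pos
  rcases h0.eq_or_lt with h | h
  · -- on the axis
    have hN0 : N z0 y = y.2 / (Real.pi * ((z0.1 - y.1) ^ 2 + y.2 ^ 2)) := by
      unfold N
      rw [if_pos h.symm]
    have hpos : 0 < (z0.1 - y.1) ^ 2 + y.2 ^ 2 := by positivity
    have hle : 𝓝[{z : ℝ × ℝ | 0 ≤ z.2}] z0 ≤ 𝓝 z0 := nhdsWithin_le_nhds
    have hne' : ∀ᶠ z in 𝓝[{z : ℝ × ℝ | 0 ≤ z.2}] z0, z ≠ y :=
      hle (isOpen_ne.mem_nhds hne)
    have hmem : ∀ᶠ z in 𝓝[{z : ℝ × ℝ | 0 ≤ z.2}] z0, 0 ≤ z.2 := self_mem_nhdsWithin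
    have hup : Tendsto (fun z : ℝ × ℝ => y.2 / (Real.pi * ((z.1 - y.1) ^ 2 + (z.2 - y.2) ^ 2)))
        (𝓝[{z : ℝ × ℝ | 0 ≤ z.2}] z0) (𝓝 (N z0 y)) := by
      have hc : ContinuousAt (fun z : ℝ × ℝ => y.2 /
          (Real.pi * ((z.1 - y.1) ^ 2 + (z.2 - y.2) ^ 2))) z0 := by
        apply ContinuousAt.div
        · fun_prop
        · fun_prop
        · rw [← h]
          apply ne_of_gt
          apply mul_pos hpi
          nlinarith
      have := (hc.tendsto).mono_left hle
      have e : y.2 / (Real.pi * ((z0.1 - y.1) ^ 2 + (z0.2 - y.2) ^ 2)) = N z0 y := by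
        rw [hN0, ← h]
        congr 2
        ring
      rwa [e] at this
    have hlo : Tendsto (fun z : ℝ × ℝ => y.2 / (Real.pi * ((z.1 - y.1) ^ 2 + (z.2 + y.2) ^ 2)))
        (𝓝[{z : ℝ × ℝ | 0 ≤ z.2}] z0) (𝓝 (N z0 y)) := by
      have hc : ContinuousAt (fun z : ℝ × ℝ => y.2 /
          (Real.pi * ((z.1 - y.1) ^ 2 + (z.2 + y.2) ^ 2))) z0 := by
        apply ContinuousAt.div
        · fun_prop
        · fun_prop
        · rw [← h]
          apply ne_of_gt
          apply mul_pos hpi
          nlinarith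
      have := (hc.tendsto).mono_left hle
      have e : y.2 / (Real.pi * ((z0.1 - y.1) ^ 2 + (z0.2 + y.2) ^ 2)) = N z0 y := by
        rw [hN0, ← h]
        congr 2
        ring
      rwa [e] at this
    refine tendsto_of_tendsto_of_tendsto_of_le_of_le' hlo hup ?_ ?_
    · filter_upwards [hne', hmem] with z h1 h2
      exact (hK1 z y h2 hy h1).2.2.2.1
    · filter_upwards [hne', hmem] with z h1 h2
      exact (hK1 z y h2 hy h1).2.2.1
  · -- inside
    apply Tendsto.mono_left _ nhdsWithin_le_nhds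
    have hev : ∀ᶠ z : ℝ × ℝ in 𝓝 z0, N z y = G z y / z.2 := by
      have : ∀ᶠ z : ℝ × ℝ in 𝓝 z0, 0 < z.2 := (isOpen_lt continuous_const continuous_snd).mem_nhds h
      filter_upwards [this] with z hz
      unfold N
      rw [if_neg hz.ne']
    have e0 : N z0 y = G z0 y / z0.2 := by
      unfold N
      rw [if_neg h.ne']
    rw [e0]
    refine Tendsto.congr' (hev.mono fun z hz => hz.symm) ?_
    have hd : (z0.1 - y.1) ^ 2 + (z0.2 - y.2) ^ 2 ≠ 0 := by
      intro h2
      have h3 : (z0.1 - y.1) ^ 2 = 0 := by nlinarith [sq_nonneg (z0.1 - y.1), sq_nonneg (z0.2 - y.2)]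
      have h4 : (z0.2 - y.2) ^ 2 = 0 := by nlinarith [sq_nonneg (z0.1 - y.1), sq_nonneg (z0.2 - y.2)]
      apply hne
      apply Prod.ext
      · linarith [pow_eq_zero_iff (two_ne_zero) |>.1 h3]
      · linarith [pow_eq_zero_iff (two_ne_zero) |>.1 h4]
    have hG : ContinuousAt (fun z => G z y) z0 := by
      unfold G
      apply ContinuousAt.div_const
      apply ContinuousAt.log
      · apply ContinuousAt.div
        · fun_prop
        · fun_prop
        · exact hd
      · apply div_ne_zero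
        · apply ne_of_gt
          have : 0 < z0.2 + y.2 := by linarith
          positivity
        · exact hd
    exact (hG.div continuousAt_snd h.ne').tendsto

end VD.M_K3

namespace VD

open M_K3 in
/-- continuity of phi up to the axis -/
theorem mK3 (hK0 : StK0) (hK1 : StK1) (hK2 : StK2) : StK3 := by
  intro A hA hO hv z0 hz0
  have hz0' : 0 ≤ z0.2 := hz0
  have hpi := Real.pi_pos
  rw [ContinuousWithinAt, Metric.tendsto_nhds]
  intro ε hε
  set d := ε / 32 with hd
  have hd0 : 0 < d := by positivity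
  set B := Metric.ball z0 d with hB
  have hBm : MeasurableSet B := Metric.isOpen_ball.measurableSet
  -- the near part
  have near : ∀ z : ℝ × ℝ, 0 ≤ z.2 → 0 ≤ phi (A ∩ B) z ∧ phi (A ∩ B) z ≤ 8 * d := by
    intro z hz
    have h1 := hK2 (A ∩ B) (hA.inter hBm) (inter_subset_left.trans hO)
      ((measure_mono inter_subset_left).trans_lt hv) z hz
    refine ⟨h1.2.1, h1.2.2.1.trans ?_⟩
    have h2 : (volume (A ∩ B)).toReal ≤ (2 * d) ^ 2 := by
      have h3 : volume (A ∩ B) ≤ ENNReal.ofReal (4 * d ^ 2) :=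
        (measure_mono inter_subset_right).trans (vol_ball z0 d hd0.le).le
      refine (ENNReal.toReal_mono ENNReal.ofReal_ne_top h3).trans ?_
      rw [ENNReal.toReal_ofReal (by positivity)]
      nlinarith
    have h4 : Real.sqrt (volume (A ∩ B)).toReal ≤ 2 * d := by
      rw [Real.sqrt_le_left (by positivity)]
      exact h2
    linarith
  have split : ∀ z : ℝ × ℝ, 0 ≤ z.2 → phi A z = phi (A ∩ B) z + phi (A \ B) z := fun z hz =>
    (integral_inter_add_sdiff hBm (hK2 A hA hO hv z hz).1).symm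
  -- the far part
  have hballz : ∀ᶠ z in 𝓝[{z : ℝ × ℝ | 0 ≤ z.2}] z0, z ∈ Metric.ball z0 (d / 2) :=
    nhdsWithin_le_nhds (Metric.ball_mem_nhds z0 (by positivity))
  have hmem : ∀ᶠ z in 𝓝[{z : ℝ × ℝ | 0 ≤ z.2}] z0, 0 ≤ z.2 := self_mem_nhdsWithin
  have far : Tendsto (fun z => phi (A \ B) z) (𝓝[{z | 0 ≤ z.2}] z0) (𝓝 (phi (A \ B) z0)) := by
    unfold phi
    apply tendsto_integral_filter_of_dominated_convergence (fun _ => 1 / (Real.pi * (d / 2)))
    · exact Eventually.of_forall fun z => (hK0.1.comp measurable_prodMk_left).aestronglyMeasurable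
    · filter_upwards [hballz, hmem] with z hz hz2
      rw [ae_restrict_iff' (hA.diff hBm)]
      refine Eventually.of_forall fun y hy => ?_
      have hyB : d ≤ dist y z0 := by
        have := hy.2
        rw [hB, Metric.mem_ball, not_lt] at this
        exact this
      have hzz : dist z z0 < d / 2 := hz
      have hzy : d / 2 ≤ dist z y := by
        have := dist_triangle y z z0
        rw [dist_comm y z] at this
        linarith
      have hne : z ≠ y := by
        intro e
        rw [e, dist_self] at hzy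
        linarith
      have h1 := hK1 z y hz2 (hO hy.1) hne
      rw [Real.norm_eq_abs, abs_of_pos h1.1]
      refine h1.2.1.trans ?_
      apply one_div_le_one_div_of_le (by positivity)
      apply mul_le_mul_of_nonneg_left _ hpi.le
      refine hzy.trans ?_
      rw [dist_eq_norm]
      exact norm_le_sqrt z y
    · exact integrableOn_const ((measure_mono sdiff_subset).trans_lt hv).ne
    · rw [ae_restrict_iff' (hA.diff hBm)]
      refine Eventually.of_forall fun y hy => ?_
      apply cont_N hK1 y z0 (hO hy.1) hz0'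
      rintro rfl
      apply hy.2
      exact Metric.mem_ball_self hd0
  rw [Metric.tendsto_nhds] at far
  filter_upwards [far (ε / 2) (by positivity), hmem] with z h1 h2
  rw [split z h2, split z0 hz0']
  rw [Real.dist_eq] at h1 ⊢
  have n1 := near z h2
  have n2 := near z0 hz0'
  have : phi (A ∩ B) z + phi (A \ B) z - (phi (A ∩ B) z0 + phi (A \ B) z0) =
    (phi (A ∩ B) z - phi (A ∩ B) z0) + (phi (A \ B) z - phi (A \ B) z0) := by ring
  rw [this]
  refine (abs_add_le _ _).trans_lt ?_
  have h3 : |phi (A ∩ B) z - phi (A ∩ B) z0| ≤ 8 * d := by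
    rw [abs_le]
    constructor <;> linarith
  rw [hd] at h3
  linarith

end VD
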