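import Pool.Agent.Helper50.VD.St

open MeasureTheory Set Filter Topology
open scoped ENNReal

noncomputable section

namespace VD.M_K4

theorem norm_le (y : ℝ × ℝ) (n : ℝ) (hy : y ∈ Box n) : ‖y‖ ≤ n := by
  rw [Prod.norm_def]
  apply max_le
  · exact hy.1
  · rw [Real.norm_eq_abs, abs_of_pos hy.2.1]
    exact hy.2.2

theorem norm_le_sqrt (z y : ℝ × ℝ) :
    ‖z - y‖ ≤ Real.sqrt ((z.1 - y.1) ^ 2 + (z.2 - y.2) ^ 2) := by
  rw [Prod.norm_def]
  apply max_le
  · apply Real.abs_le_sqrt
    show (z.1 - y.1) ^ 2 ≤ _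
    nlinarith [sq_nonneg (z.2 - y.2)]
  · apply Real.abs_le_sqrt
    show (z.2 - y.2) ^ 2 ≤ _
    nlinarith [sq_nonneg (z.1 - y.1)]

theorem tail_small (A : Set (ℝ × ℝ)) (hA : MeasurableSet A) (hO : A ⊆ Om) (hv : volume A < ∞)
    (δ : ℝ) (hδ : 0 < δ) : ∃ n : ℕ, (volume (A \ Box n)).toReal ≤ δ := by
  have h1 : Tendsto (fun n : ℕ => volume (A \ Box n)) atTop (𝓝 (volume (⋂ n : ℕ, A \ Box n))) := by
    apply tendsto_measure_iInter_atTop
    · exact fun n => (hA.diff (measurableSet_Box n)).nullMeasurableSet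
    · intro m n hmn
      exact sdiff_subset_sdiff_right (Box_mono (by exact_mod_cast hmn))
    · exact ⟨0, ((measure_mono sdiff_subset).trans_lt hv).ne⟩
  have h2 : (⋂ n : ℕ, A \ Box n) = ∅ := by
    ext y
    simp only [mem_iInter, mem_empty_iff_false, iff_false]
    intro h
    have hyA : y ∈ A := (h 0).1
    obtain ⟨n, hn⟩ := exists_nat_ge ‖y‖
    apply (h n).2
    refine ⟨(norm_fst_le y).trans hn, hO hyA, ?_⟩
    have := (norm_snd_le y).trans hn
    exact (le_abs_self _).trans this
  rw [h2, measure_empty] at h1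
  have h3 := (ENNReal.tendsto_toReal ENNReal.zero_ne_top).comp h1
  rw [ENNReal.toReal_zero] at h3
  obtain ⟨n, hn⟩ := (h3.eventually (gt_mem_nhds hδ)).exists
  exact ⟨n, le_of_lt hn⟩

end VD.M_K4

namespace VD

open M_K4 in
/-- decay of phi -/
theorem mK4 (_hK0 : StK0) (hK1 : StK1) (hK2 : StK2) : StK4 := by
  intro A hA hO hv ε hε
  have hpi := Real.pi_gt_three
  obtain ⟨n, hn⟩ := tail_small A hA hO hv ((ε / 8) ^ 2) (by positivity)
  set V := (volume A).toReal with hV
  have hV0 : 0 ≤ V := ENNReal.toReal_nonneg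
  refine ⟨n + V / ε + 1, fun z hz hR => ?_⟩
  have hz2 := hK2 A hA hO hv z hz
  -- splitting
  have hsplit : phi A z = phi (A ∩ Box n) z + phi (A \ Box n) z :=
    (integral_inter_add_sdiff (measurableSet_Box n) hz2.1).symm
  have ht : phi (A \ Box n) z ≤ ε / 2 := by
    have h1 := (hK2 (A \ Box n) (hA.diff (measurableSet_Box n)) (sdiff_subset.trans hO)
      ((measure_mono sdiff_subset).trans_lt hv) z hz).2.2.1
    have h2 : Real.sqrt (volume (A \ Box n)).toReal ≤ ε / 8 := by
      rw [Real.sqrt_le_left (by positivity)]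
      exact hn
    linarith
  have hgap : 0 < ‖z‖ - n := by
    have : 0 ≤ V / ε := by positivity
    linarith
  have hb : phi (A ∩ Box n) z ≤ ε / 2 := by
    have h1 : phi (A ∩ Box n) z ≤ ∫ y in A ∩ Box n, 1 / (Real.pi * (‖z‖ - n)) := by
      apply setIntegral_mono_on (hz2.1.mono_set inter_subset_left)
      · exact integrableOn_const ((measure_mono inter_subset_left).trans_lt hv).ne
      · exact hA.inter (measurableSet_Box n)
      · rintro y ⟨hyA, hyB⟩
        have hy := norm_le y n hyB
        have hne : z ≠ y := by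
          rintro rfl
          linarith
        refine (hK1 z y hz (hO hyA) hne).2.1.trans ?_
        apply one_div_le_one_div_of_le (by positivity)
        apply mul_le_mul_of_nonneg_left _ Real.pi_pos.le
        have h3 := norm_le_sqrt z y
        have h4 := norm_sub_norm_le z y
        linarith
    refine h1.trans ?_
    rw [setIntegral_const, smul_eq_mul]
    have h5 : volume.real (A ∩ Box n) ≤ V :=
      ENNReal.toReal_mono hv.ne (measure_mono inter_subset_left)
    have h6 : (0 : ℝ) ≤ 1 / (Real.pi * (‖z‖ - n)) := by positivity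
    refine (mul_le_mul_of_nonneg_right h5 h6).trans ?_
    rw [mul_one_div, div_le_iff₀ (by positivity)]
    have h7 : V / ε ≤ ‖z‖ - n := by linarith
    rw [div_le_iff₀ hε] at h7
    nlinarith [mul_pos hε hgap]
  linarith

end VD
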