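import Pool.Agent.Helper50.VD.St

open MeasureTheory Set Filter Topology
open scoped ENNReal Pointwise

noncomputable section

namespace VD.M_K5

/-! measure preserving maps -/

theorem gen (T : ℝ × ℝ → ℝ × ℝ) (hT : MeasurePreserving T volume volume)
    (hE : MeasurableEmbedding T) (h2 : ∀ z, (T z).2 = z.2) (hN : ∀ z y, N (T z) (T y) = N z y)
    (A : Set (ℝ × ℝ)) (hA : MeasurableSet A) :
    (∀ z : ℝ × ℝ, phi (T ⁻¹' A) z = phi A (T z)) ∧
    nu (T ⁻¹' A) = nu A ∧ volume (T ⁻¹' A) = volume A ∧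
    BG (T ⁻¹' A) (T ⁻¹' A) = BG A A := by
  have hphi : ∀ z : ℝ × ℝ, phi (T ⁻¹' A) z = phi A (T z) := by
    intro z
    unfold phi
    rw [← hT.setIntegral_preimage_emb hE (fun y => N (T z) y) A]
    simp_rw [hN]
  refine ⟨hphi, ?_, ?_, ?_⟩
  · rw [nu_apply hA, nu_apply (hT.measurable hA),
      ← hT.setLIntegral_comp_preimage_emb hE (fun y => ENNReal.ofReal y.2) A]
    simp_rw [h2]
  · exact hT.measure_preimage hA.nullMeasurableSet
  · unfold BG
    rw [← hT.setIntegral_preimage_emb hE (fun z => z.2 * phi A z) A]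
    simp_rw [h2, hphi]

theorem mp_sh (τ : ℝ) : MeasurePreserving (fun z : ℝ × ℝ => (z.1 - τ, z.2)) volume volume ∧
    MeasurableEmbedding (fun z : ℝ × ℝ => (z.1 - τ, z.2)) := by
  constructor
  · exact (measurePreserving_sub_right volume τ).prod (MeasurePreserving.id volume)
  · exact (MeasurableEquiv.prodCongr (MeasurableEquiv.subRight τ)
      (MeasurableEquiv.refl ℝ)).measurableEmbedding

theorem mp_rfl (l : ℝ) : MeasurePreserving (rfl' l) volume volume ∧
    MeasurableEmbedding (rfl' l) := by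
  constructor
  · exact (Measure.measurePreserving_sub_left volume (2 * l)).prod (MeasurePreserving.id volume)
  · exact (MeasurableEquiv.prodCongr (MeasurableEquiv.subLeft (2 * l))
      (MeasurableEquiv.refl ℝ)).measurableEmbedding

theorem N_sh (τ : ℝ) (z y : ℝ × ℝ) : N (z.1 - τ, z.2) (y.1 - τ, y.2) = N z y := by
  have e : z.1 - τ - (y.1 - τ) = z.1 - y.1 := by ring
  unfold N G
  simp only [e]

theorem N_rfl (l : ℝ) (z y : ℝ × ℝ) : N (rfl' l z) (rfl' l y) = N z y := by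
  have e : (2 * l - z.1 - (2 * l - y.1)) ^ 2 = (z.1 - y.1) ^ 2 := by ring
  unfold N G rfl'
  simp only [e]

theorem N_dil (r : ℝ) (hr : 0 < r) (z y : ℝ × ℝ) :
    N (r * z.1, r * z.2) (r * y.1, r * y.2) = N z y / r := by
  have hr0 : r ≠ 0 := hr.ne'
  have e1 : (r * z.1 - r * y.1) ^ 2 = r ^ 2 * (z.1 - y.1) ^ 2 := by ring
  have e2 : (r * z.2 + r * y.2) ^ 2 = r ^ 2 * (z.2 + y.2) ^ 2 := by ring
  have e3 : (r * z.2 - r * y.2) ^ 2 = r ^ 2 * (z.2 - y.2) ^ 2 := by ring
  have e4 : (r * y.2) ^ 2 = r ^ 2 * y.2 ^ 2 := by ring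
  unfold N G
  simp only [e1, e2, e3, e4]
  rw [← mul_add, ← mul_add, ← mul_add, mul_div_mul_left _ _ (pow_ne_zero 2 hr0)]
  by_cases h : z.2 = 0
  · rw [if_pos h, if_pos (by rw [h, mul_zero])]
    have : Real.pi * (r ^ 2 * ((z.1 - y.1) ^ 2 + y.2 ^ 2)) =
        r * (Real.pi * ((z.1 - y.1) ^ 2 + y.2 ^ 2) * r) := by ring
    rw [this, mul_div_mul_left _ _ hr0, div_div]
  · rw [if_neg h, if_neg (mul_ne_zero hr0 h), mul_comm r z.2, ← div_div]

theorem dil_eq (r : ℝ) (hr : 0 < r) (A : Set (ℝ × ℝ)) : dil r A = r • A := by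
  ext z
  rw [mem_smul_set_iff_inv_smul_mem₀ hr.ne']
  have : (z.1 / r, z.2 / r) = r⁻¹ • z := by
    apply Prod.ext
    · show z.1 / r = r⁻¹ * z.1
      rw [div_eq_mul_inv, mul_comm]
    · show z.2 / r = r⁻¹ * z.2
      rw [div_eq_mul_inv, mul_comm]
  unfold dil
  rw [mem_ofPred_eq, this]

theorem finrank2 : Module.finrank ℝ (ℝ × ℝ) = 2 := by
  rw [Module.finrank_prod, Module.finrank_self]

theorem int_dil (r : ℝ) (hr : 0 < r) (A : Set (ℝ × ℝ)) (f : ℝ × ℝ → ℝ) :
    ∫ y in dil r A, f y = r ^ 2 * ∫ y in A, f (r * y.1, r * y.2) := by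
  have h := Measure.setIntegral_comp_smul_of_pos (μ := (volume : Measure (ℝ × ℝ))) f A hr
  rw [finrank2, ← dil_eq r hr A] at h
  have e : ∀ y : ℝ × ℝ, (r * y.1, r * y.2) = r • y := fun y => rfl
  simp_rw [e]
  rw [h, smul_eq_mul, ← mul_assoc, mul_inv_cancel₀ (by positivity), one_mul]

theorem vol_dil (r : ℝ) (hr : 0 < r) (A : Set (ℝ × ℝ)) :
    volume (dil r A) = ENNReal.ofReal (r ^ 2) * volume A := by
  rw [dil_eq r hr A, Measure.addHaar_smul, finrank2, abs_of_pos (by positivity)]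

theorem meas_dil (r : ℝ) (A : Set (ℝ × ℝ)) (hA : MeasurableSet A) : MeasurableSet (dil r A) := by
  have hm : Measurable (fun z : ℝ × ℝ => (z.1 / r, z.2 / r)) := by fun_prop
  exact hm hA

theorem nu_dil (r : ℝ) (hr : 0 < r) (A : Set (ℝ × ℝ)) (hA : MeasurableSet A) :
    nu (dil r A) = ENNReal.ofReal (r ^ 3) * nu A := by
  rw [nu_apply hA, nu_apply (meas_dil r A hA)]
  have hm : Measurable (fun y : ℝ × ℝ => r • y) := measurable_const_smul r
  have h1 : Measure.map (fun y : ℝ × ℝ => r • y) volume =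
      ENNReal.ofReal |(r ^ 2)⁻¹| • (volume : Measure (ℝ × ℝ)) := by
    have := Measure.map_addHaar_smul (volume : Measure (ℝ × ℝ)) hr.ne'
    rw [finrank2] at this
    exact this
  have h2 : ∫⁻ y in dil r A, ENNReal.ofReal y.2 ∂(Measure.map (fun y : ℝ × ℝ => r • y) volume) =
      ∫⁻ y in A, ENNReal.ofReal (r * y.2) := by
    rw [setLIntegral_map (meas_dil r A hA) (by fun_prop) hm]
    have h3 : (fun y : ℝ × ℝ => r • y) ⁻¹' dil r A = A := by
      ext y
      rw [mem_preimage]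
      unfold dil
      rw [mem_ofPred_eq]
      have : ((r • y).1 / r, (r • y).2 / r) = y := by
        apply Prod.ext
        · show r * y.1 / r = y.1
          field_simp
        · show r * y.2 / r = y.2
          field_simp
      rw [this]
    rw [h3]
    rfl
  rw [h1, Measure.restrict_smul, lintegral_smul_measure] at h2
  have h4 : ∫⁻ y in A, ENNReal.ofReal (r * y.2) =
      ENNReal.ofReal r * ∫⁻ y in A, ENNReal.ofReal y.2 := by
    rw [← lintegral_const_mul _ (by fun_prop)]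
    congr 1
    ext y
    rw [ENNReal.ofReal_mul hr.le]
  rw [h4, smul_eq_mul] at h2
  have h5 : ENNReal.ofReal (r ^ 2) * ENNReal.ofReal |(r ^ 2)⁻¹| = 1 := by
    rw [← ENNReal.ofReal_mul (by positivity), abs_of_pos (by positivity),
      mul_inv_cancel₀ (by positivity), ENNReal.ofReal_one]
  calc ∫⁻ y in dil r A, ENNReal.ofReal y.2
      = ENNReal.ofReal (r ^ 2) * (ENNReal.ofReal |(r ^ 2)⁻¹| *
          ∫⁻ y in dil r A, ENNReal.ofReal y.2) := by
        rw [← mul_assoc, h5, one_mul]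
    _ = ENNReal.ofReal (r ^ 2) * (ENNReal.ofReal r * ∫⁻ y in A, ENNReal.ofReal y.2) := by
        rw [h2]
    _ = _ := by
        rw [← mul_assoc, ← ENNReal.ofReal_mul (by positivity)]
        congr 2

end VD.M_K5

namespace VD

open M_K5 in
/-- scaling, translation, reflection of phi, nu, volume, BG -/
theorem mK5 (_hK0 : StK0) : StK5 := by
  refine ⟨?_, ?_, ?_⟩
  · intro A r hA _ hr
    have hphi : ∀ z : ℝ × ℝ, phi (dil r A) (r * z.1, r * z.2) = r * phi A z := by
      intro z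
      unfold phi
      rw [int_dil r hr]
      simp_rw [N_dil r hr z]
      rw [integral_div]
      field_simp
    refine ⟨hphi, nu_dil r hr A hA, vol_dil r hr A, ?_⟩
    unfold BG
    rw [int_dil r hr]
    simp_rw [hphi]
    rw [← integral_const_mul, ← integral_const_mul]
    congr 1
    ext z
    ring
  · intro A τ hA _
    exact gen _ (mp_sh τ).1 (mp_sh τ).2 (fun _ => rfl) (N_sh τ) A hA
  · intro A l hA _
    exact gen _ (mp_rfl l).1 (mp_rfl l).2 (fun _ => rfl) (N_rfl l) A hA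

end VD
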